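import Pool.Agent.V5helper39.WR.Stm3
import Pool.Agent.V5helper9.WR.GLUE

set_option autoImplicit false

/-!
# Project WR (helper39), job GLUET: the growing modulus, all pairs `(j, m)` at the same time
-/

open Finset MeasureTheory ProbabilityTheory Filter

namespace Pool.Agent.V5helper12.WR

open Pool.Agent.V5helper39.WQ Pool.Agent.V5helper39.WR
open Pool.Agent.V5helper9.WR (exists_index index_unique)

/-- the thresholds -/
def thr (F : ℕ → ℕ → ℕ) : ℕ → ℕ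
  | 0 => 0
  | l + 1 => thr F l + 1 + ∑ a ∈ range (l + 2), ∑ b ∈ range (l + 2), F a b

theorem thr_succ (F : ℕ → ℕ → ℕ) (l : ℕ) :
    thr F (l + 1) = thr F l + 1 + ∑ a ∈ range (l + 2), ∑ b ∈ range (l + 2), F a b := rfl

theorem thr_mono (F : ℕ → ℕ → ℕ) : StrictMono (thr F) := by
  refine strictMono_nat_of_lt_succ fun j => ?_
  rw [thr_succ]
  omega

theorem thr_le (F : ℕ → ℕ → ℕ) (l a b : ℕ) (ha : a ≤ l + 1) (hb : b ≤ l + 1) : F a b ≤ thr F (l + 1) := by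
  rw [thr_succ]
  have h1 : F a b ≤ ∑ b ∈ range (l + 2), F a b :=
    single_le_sum (f := fun b => F a b) (fun _ _ => Nat.zero_le _) (mem_range.2 (by omega))
  have h2 : ∑ b ∈ range (l + 2), F a b ≤ ∑ a ∈ range (l + 2), ∑ b ∈ range (l + 2), F a b :=
    single_le_sum (f := fun a => ∑ b ∈ range (l + 2), F a b) (fun _ _ => Nat.zero_le _) (mem_range.2 (by omega))
  omega

/-- Job GLUET. -/
theorem t_GLUET : S_GLUET := by
  intro k S γ c q hk hc hP hq hd
  have key : ∀ a b : ℕ, ∃ F : ℕ, Nat.unpair a ∈ S → ∀ (Ω : Type) [MeasurableSpace Ω] (μ : Measure Ω)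
      [IsProbabilityMeasure μ] (θ : ℕ → Ω → ℕ), (∀ x, Measurable (θ x)) → iIndepFun θ μ → (∀ x ω, θ x ω ≤ x ^ (k - 1)) →
      ∀ n ≥ F, (∀ x v : ℕ, 1 ≤ x → x ≤ n → q b ∣ v → (v : ℝ) ≤ (x : ℝ) ^ γ → c / (x : ℝ) ^ γ ≤ μ.real {ω | θ x ω = v}) →
      (∃ r : Fin ((Nat.unpair a).1 + (Nat.unpair a).2) → ℕ, (∑ i, r i ^ k) ≡ n [MOD q b]) →
      μ.real {ω | ¬ IsMix k (fun x => x ^ k + θ x ω) (Nat.unpair a).1 (Nat.unpair a).2 n} ≤ 1 / (n : ℝ) ^ 2 := by
    intro a b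
    by_cases hs : Nat.unpair a ∈ S
    · obtain ⟨F, hF⟩ := hP _ hs (q b) (hq b)
      exact ⟨F, fun _ => hF⟩
    · exact ⟨0, fun h => absurd h hs⟩
  choose F hF using key
  obtain ⟨T, hTdef⟩ : ∃ T, T = thr F := ⟨_, rfl⟩
  have hT0 : T 0 = 0 := by rw [hTdef]; rfl
  have hT : StrictMono T := by rw [hTdef]; exact thr_mono _
  have hTle : ∀ l a b, a ≤ l + 1 → b ≤ l + 1 → F a b ≤ T (l + 1) := by
    intro l a b ha hb
    rw [hTdef]
    exact thr_le F l a b ha hb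
  have hqd : ∀ a b, a ≤ b → q a ∣ q b := by
    intro a b hab
    induction b, hab using Nat.le_induction with
    | base => exact dvd_rfl
    | succ b _ ih => exact ih.trans (hd b)
  obtain ⟨i₀, hi, hi', hTi⟩ := exists_index T hT0 hT
  refine ⟨i₀, hi, hi', ?_⟩
  intro i him hii Ω _ μ _ θ hθ
  have main : ∀ a : ℕ, ∀ᵐ ω ∂μ, Nat.unpair a ∈ S → ∀ᶠ n in atTop,
      (∃ r : Fin ((Nat.unpair a).1 + (Nat.unpair a).2) → ℕ, (∑ l, r l ^ k) ≡ n [MOD q (i n)]) →
      IsMix k (fun x => x ^ k + θ x ω) (Nat.unpair a).1 (Nat.unpair a).2 n := by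
    intro a
    by_cases hs : Nat.unpair a ∈ S
    swap
    · exact Eventually.of_forall fun ω h => absurd h hs
    refine (bc μ (fun n => {ω | (∃ r : Fin ((Nat.unpair a).1 + (Nat.unpair a).2) → ℕ,
        (∑ l, r l ^ k) ≡ n [MOD q (i n)]) ∧
      ¬ IsMix k (fun x => x ^ k + θ x ω) (Nat.unpair a).1 (Nat.unpair a).2 n}) 1 (T (a + 1)) ?_).mono
      fun ω hω _ => hω.mono fun n hn hL => ?_
    · intro n hn
      obtain ⟨l, hl, hal⟩ : ∃ l, i₀ n = l + 1 ∧ a ≤ l := by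
        have h1 : a + 1 < i₀ n + 1 := hT.lt_iff_lt.1 (lt_of_le_of_lt hn (hTi n).2)
        exact ⟨i₀ n - 1, by omega, by omega⟩
      have hn1 : T (l + 1) ≤ n := by
        rw [← hl]
        exact (hTi n).1
      have hin : i n ≤ l + 1 := by
        rw [← hl]
        exact hii n
      have hFn : F a (i n) ≤ n := (hTle l a (i n) (by omega) hin).trans hn1
      by_cases hL : ∃ r : Fin ((Nat.unpair a).1 + (Nat.unpair a).2) → ℕ, (∑ l, r l ^ k) ≡ n [MOD q (i n)]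
      · have e1 : {ω | (∃ r : Fin ((Nat.unpair a).1 + (Nat.unpair a).2) → ℕ, (∑ l, r l ^ k) ≡ n [MOD q (i n)]) ∧
            ¬ IsMix k (fun x => x ^ k + θ x ω) (Nat.unpair a).1 (Nat.unpair a).2 n} =
            {ω | ¬ IsMix k (fun x => x ^ k + θ x ω) (Nat.unpair a).1 (Nat.unpair a).2 n} := by
          ext ω
          exact ⟨fun h => h.2, fun h => ⟨hL, h⟩⟩
        rw [e1]
        refine hF a (i n) hs Ω μ θ hθ.meas hθ.indep hθ.le n hFn ?_ hL
        intro x v h1 h2 h3 h4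
        exact hθ.spread x v h1 ((hqd _ _ (him h2)).trans h3) h4
      · have e1 : {ω | (∃ r : Fin ((Nat.unpair a).1 + (Nat.unpair a).2) → ℕ, (∑ l, r l ^ k) ≡ n [MOD q (i n)]) ∧
            ¬ IsMix k (fun x => x ^ k + θ x ω) (Nat.unpair a).1 (Nat.unpair a).2 n} = ∅ := by
          ext ω
          exact ⟨fun h => absurd h.1 hL, fun h => absurd h (Set.notMem_empty ω)⟩
        rw [e1, measureReal_empty]
        positivity
    · by_contra h
      exact hn ⟨hL, h⟩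
  refine (ae_all_iff.2 main).mono fun ω hω p hp => ?_
  have h1 := hω (Nat.pair p.1 p.2)
  rw [Nat.unpair_pair] at h1
  exact h1 hp

end Pool.Agent.V5helper12.WR
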